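import Pool.Agent.H4.FV.OddT

/-!
# Project FV/ODD (helper4): definability of the basic predicates (`S_fd`), by helper236
-/

set_option autoImplicit false
set_option linter.unusedSectionVars false

namespace Pool.Agent.H236.FV

open FirstOrder FirstOrder.Language
open Pool.Agent.W889.FO
open Pool.Agent.W889.FO.StA (FD.all1 FD.ex1)
open Pool.Agent.N649.SG.Light (pw)
open Pool.Agent.H4.VG (Cen LR LM ml FT FT.var FT.mul FT.sub FT.congr eqT fd_cen fd_finex)
open Pool.Agent.H4.FV.Odd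

section

variable {α ι : Type} {x y : LR.Structure ℕ → (α → ℕ) → ℕ}

theorem ft_pw (hx : FT x) (n : ℕ) : FT (fun S v => pw (ml S) (x S v) n) := by
  induction n with
  | zero => exact hx
  | succ n ih => exact ih.mul hx

theorem ft_iv (p : ℕ) (hx : FT x) : FT (fun S v => iv p (ml S) (x S v)) := ft_pw hx _

theorem ft_cm (p : ℕ) (hx : FT x) (hy : FT y) :
    FT (fun S v => cm p (ml S) (x S v) (y S v)) :=
  ((hx.mul hy).mul (ft_iv p hx)).mul (ft_iv p hy)

theorem ft_ad (p : ℕ) (hx : FT x) (hy : FT y) :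
    FT (fun S v => ad p (ml S) (x S v) (y S v)) :=
  (hx.mul hy).mul (ft_pw (ft_cm p hy hx) _)

theorem ft_sm (p : ℕ) (c : ZMod p) (hx : FT x) : FT (fun S v => sm p (ml S) c (x S v)) :=
  ft_pw hx _

theorem ft_sums (p : ℕ) (l : List ι) (hx : FT x) {u : ι → LR.Structure ℕ → (α → ℕ) → ℕ}
    (hu : ∀ i, FT (u i)) : FT (fun S v => sums p (ml S) (x S v) (l.map fun i => u i S v)) := by
  induction l with
  | nil => exact hx
  | cons a l ih => exact ft_ad p (hu a) ih

theorem ft_lc (p : ℕ) [Fintype ι] (c : ι → ZMod p) (hx : FT x)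
    {u : ι → LR.Structure ℕ → (α → ℕ) → ℕ} (hu : ∀ i, FT (u i)) :
    FT (fun S v => lc p (ml S) (x S v) (fun i => u i S v) c) :=
  ft_sums p _ hx (u := fun i S v => sm p (ml S) (c i) (u i S v)) (fun i => ft_sm p (c i) (hu i))

theorem ft_bl (p : ℕ) [Fintype ι] (C : ι → ι → ZMod p) (hx : FT x)
    {u : ι → LR.Structure ℕ → (α → ℕ) → ℕ} (hu : ∀ i, FT (u i)) :
    FT (fun S v => bl p (ml S) (x S v) (fun i => u i S v) C) :=
  ft_sums p _ hx (u := fun (q : ι × ι) S v =>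
    sm p (ml S) (C q.1 q.2) (cm p (ml S) (u q.1 S v) (u q.2 S v)))
    (fun q => ft_sm p _ (ft_cm p (hu q.1) (hu q.2)))

theorem fd_Ind (p : ℕ) [Fact p.Prime] [Fintype ι] {u : ι → LR.Structure ℕ → (α → ℕ) → ℕ}
    (hu : ∀ i, FT (u i)) :
    FD (St0.W (L := LM)) (fun S v => Ind p (ml S) fun i => u i S v) :=
  FD.all1 (P := fun S v e => ml S e e = e → ∀ c : ι → ZMod p, (∃ i, c i ≠ 0) →
    ¬ Cen (ml S) (lc p (ml S) e (fun i => u i S v) c)) <|
  (eqT ((FT.var _).mul (FT.var _)) (FT.var _)).imp <|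
  FD.fin fun c => (FD.const _).imp
    (fd_cen (ft_lc p c (FT.var _) (u := fun i S w => u i S (fun j => w (Sum.inl j)))
      (fun i => (hu i).sub Sum.inl))).not

theorem fd_InS (p : ℕ) [Fact p.Prime] [Fintype ι] {u : ι → LR.Structure ℕ → (α → ℕ) → ℕ}
    (hu : ∀ i, FT (u i)) (hx : FT x) :
    FD (St0.W (L := LM)) (fun S v => InS p (ml S) (fun i => u i S v) (x S v)) :=
  FD.ex1 (P := fun S v e => ml S e e = e ∧ ∃ c : ι → ZMod p,
    Cen (ml S) (ad p (ml S) (x S v) (lc p (ml S) e (fun i => u i S v) c))) <|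
  (eqT ((FT.var _).mul (FT.var _)) (FT.var _)).and <|
  fd_finex fun c => fd_cen (ft_ad p (hx.sub Sum.inl) (ft_lc p c (FT.var _)
    (u := fun i S w => u i S (fun j => w (Sum.inl j))) (fun i => (hu i).sub Sum.inl)))

end

/-- **ODD-FD.** -/
theorem fd : S_fd := by
  intro p _ ι α _ u x c C hu hx
  exact ⟨ft_lc p c hx hu, ft_bl p C hx hu, fd_Ind p hu, fd_InS p hu hx⟩

end Pool.Agent.H236.FV
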